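import Pool.Agent.Y300.KS.Stm
import Pool.Agent.K300.Off

/-! Project KS: the moment generating function of the trinomial distribution. -/

set_option autoImplicit false

open Set MeasureTheory ProbabilityTheory Filter Topology

namespace Pool.Agent.Y317.KS

open Pool.Agent.K300 Pool.Agent.Y300.KS

theorem trinomial (n : ℕ) (X Y Z : ℝ) :
    ∑ m ∈ tri n, (n.factorial : ℝ) / (m.1.factorial * m.2.factorial * (n - m.1 - m.2).factorial) *
      (X ^ m.1 * Y ^ m.2 * Z ^ (n - m.1 - m.2)) = (X + Y + Z) ^ n := by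
  rw [sum_tri_eq, add_assoc, add_pow]
  refine Finset.sum_congr rfl fun i hi => ?_
  rw [Finset.mem_range] at hi
  have hi' : i ≤ n := by omega
  rw [add_pow, Finset.mul_sum, Finset.sum_mul]
  have e : n + 1 - i = n - i + 1 := by omega
  rw [e]
  refine Finset.sum_congr rfl fun j hj => ?_
  rw [Finset.mem_range] at hj
  have hj' : j ≤ n - i := by omega
  rw [Nat.cast_choose ℝ hi', Nat.cast_choose ℝ hj']
  have h1 : (i.factorial : ℝ) ≠ 0 := by positivity
  have h2 : (j.factorial : ℝ) ≠ 0 := by positivity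
  have h3 : ((n - i).factorial : ℝ) ≠ 0 := by positivity
  have h4 : ((n - i - j).factorial : ℝ) ≠ 0 := by positivity
  field_simp

theorem ell_pos {n : ℕ} (hn : 0 < n) : 0 < ell n := Nat.sqrt_pos.2 hn

theorem le_ell {n : ℕ} (hn : 0 < n) : (n : ℝ) ≤ 4 * (ell n : ℝ) ^ 2 := by
  have h1 : n < (ell n + 1) * (ell n + 1) := Nat.lt_succ_sqrt n
  have h2 := ell_pos hn
  have h3 : n ≤ 4 * ell n ^ 2 := by nlinarith
  exact_mod_cast h3

theorem pr_nonneg (n I J : ℕ) (m : ℕ × ℕ) : 0 ≤ pr n I J m := by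
  unfold pr
  positivity

theorem exp_le {t : ℝ} (ht : |t| ≤ 1) : Real.exp t ≤ 1 + t + t ^ 2 := by
  have h := (abs_le.1 (Real.abs_exp_sub_one_sub_id_le ht)).2
  linarith

theorem mgf_all : S_MGF := by
  intro n I J hn hIJ a b ha hb
  have hl := ell_pos hn
  have hlR : (0 : ℝ) < ell n := by exact_mod_cast hl
  have hnR : (0 : ℝ) < n := by exact_mod_cast hn
  obtain ⟨α, hα⟩ : ∃ α : ℝ, α = a / ell n := ⟨_, rfl⟩
  obtain ⟨β, hβ⟩ : ∃ β : ℝ, β = b / ell n := ⟨_, rfl⟩
  have haα : a = α * ell n := by rw [hα]; field_simp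
  have hbβ : b = β * ell n := by rw [hβ]; field_simp
  have hα1 : |α| ≤ 1 := by
    rw [hα, abs_div, abs_of_pos hlR, div_le_one hlR]; exact ha
  have hβ1 : |β| ≤ 1 := by
    rw [hβ, abs_div, abs_of_pos hlR, div_le_one hlR]; exact hb
  have hterm : ∀ m ∈ tri n, pr n I J m * Real.exp (sx n I m.1 * a + sx n J m.2 * b) =
      ((n.factorial : ℝ) / (m.1.factorial * m.2.factorial * (n - m.1 - m.2).factorial) *
      (((I:ℝ) / n * Real.exp α) ^ m.1 * ((J:ℝ) / n * Real.exp β) ^ m.2 *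
        (((n - I - J : ℕ) : ℝ) / n) ^ (n - m.1 - m.2))) * Real.exp (-(I * α + J * β)) := by
    intro m _
    have h1 : Real.exp (sx n I m.1 * a + sx n J m.2 * b) =
        Real.exp α ^ m.1 * Real.exp β ^ m.2 * Real.exp (-(I * α + J * β)) := by
      rw [← Real.exp_nat_mul, ← Real.exp_nat_mul, ← Real.exp_add, ← Real.exp_add]
      congr 1
      unfold sx
      rw [haα, hbβ]
      field_simp
      ring
    rw [h1, pr, mul_pow, mul_pow]
    ring
  rw [Finset.sum_congr rfl hterm, ← Finset.sum_mul, trinomial]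
  have hK : (((n - I - J : ℕ) : ℝ) / n) = 1 - (I:ℝ) / n - (J:ℝ) / n := by
    have h1 : ((n - I - J : ℕ) : ℝ) = (n:ℝ) - I - J := by
      rw [Nat.sub_sub, Nat.cast_sub hIJ]; push_cast; ring
    rw [h1]
    field_simp
  rw [hK]
  have hI0 : (0 : ℝ) ≤ (I:ℝ) / n := by positivity
  have hJ0 : (0 : ℝ) ≤ (J:ℝ) / n := by positivity
  have hIJR : (I:ℝ) + J ≤ n := by exact_mod_cast hIJ
  have hsum1 : (I:ℝ) / n + (J:ℝ) / n ≤ 1 := by
    rw [← add_div, div_le_one hnR]; exact hIJR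
  have hbase0 : 0 ≤ (I:ℝ) / n * Real.exp α + (J:ℝ) / n * Real.exp β +
      (1 - (I:ℝ) / n - (J:ℝ) / n) := by
    have := Real.exp_pos α
    have := Real.exp_pos β
    have h1 : 0 ≤ (I:ℝ) / n * Real.exp α := by positivity
    have h2 : 0 ≤ (J:ℝ) / n * Real.exp β := by positivity
    linarith
  have hbase : (I:ℝ) / n * Real.exp α + (J:ℝ) / n * Real.exp β +
      (1 - (I:ℝ) / n - (J:ℝ) / n) ≤
      Real.exp ((I:ℝ) / n * (α + α ^ 2) + (J:ℝ) / n * (β + β ^ 2)) := by
    have h1 := mul_le_mul_of_nonneg_left (exp_le hα1) hI0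
    have h2 := mul_le_mul_of_nonneg_left (exp_le hβ1) hJ0
    have h3 := Real.add_one_le_exp ((I:ℝ) / n * (α + α ^ 2) + (J:ℝ) / n * (β + β ^ 2))
    linarith
  have hpow := pow_le_pow_left₀ hbase0 hbase n
  have h5 : Real.exp ((I:ℝ) / n * (α + α ^ 2) + (J:ℝ) / n * (β + β ^ 2)) ^ n =
      Real.exp (I * (α + α ^ 2) + J * (β + β ^ 2)) := by
    rw [← Real.exp_nat_mul]
    congr 1
    field_simp
  rw [h5] at hpow
  refine (mul_le_mul_of_nonneg_right hpow (Real.exp_pos _).le).trans ?_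
  rw [← Real.exp_add, Real.exp_le_exp]
  have h6 := le_ell hn
  have hI1 : (I:ℝ) ≤ 4 * (ell n : ℝ) ^ 2 := by
    have : (0:ℝ) ≤ J := Nat.cast_nonneg _
    linarith
  have hJ1 : (J:ℝ) ≤ 4 * (ell n : ℝ) ^ 2 := by
    have : (0:ℝ) ≤ I := Nat.cast_nonneg _
    linarith
  have h7 := mul_le_mul_of_nonneg_right hI1 (sq_nonneg α)
  have h8 := mul_le_mul_of_nonneg_right hJ1 (sq_nonneg β)
  rw [haα, hbβ]
  nlinarith

theorem abs_all : S_ABS := by
  intro n I J hn hIJ t ht0 ht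
  have key : ∀ m : ℕ × ℕ, Real.exp (t * ab n I J m) ≤
      Real.exp (sx n I m.1 * t + sx n J m.2 * t) + Real.exp (sx n I m.1 * t + sx n J m.2 * (-t)) +
      Real.exp (sx n I m.1 * (-t) + sx n J m.2 * t) +
      Real.exp (sx n I m.1 * (-t) + sx n J m.2 * (-t)) := by
    intro m
    unfold ab
    have p1 := Real.exp_pos (sx n I m.1 * t + sx n J m.2 * t)
    have p2 := Real.exp_pos (sx n I m.1 * t + sx n J m.2 * (-t))
    have p3 := Real.exp_pos (sx n I m.1 * (-t) + sx n J m.2 * t)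
    have p4 := Real.exp_pos (sx n I m.1 * (-t) + sx n J m.2 * (-t))
    rcases abs_cases (sx n I m.1) with ⟨h1, -⟩ | ⟨h1, -⟩ <;>
      rcases abs_cases (sx n J m.2) with ⟨h2, -⟩ | ⟨h2, -⟩ <;> rw [h1, h2]
    · rw [show t * (sx n I m.1 + sx n J m.2) = sx n I m.1 * t + sx n J m.2 * t by ring]
      linarith
    · rw [show t * (sx n I m.1 + -sx n J m.2) = sx n I m.1 * t + sx n J m.2 * (-t) by ring]
      linarith
    · rw [show t * (-sx n I m.1 + sx n J m.2) = sx n I m.1 * (-t) + sx n J m.2 * t by ring]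
      linarith
    · rw [show t * (-sx n I m.1 + -sx n J m.2) = sx n I m.1 * (-t) + sx n J m.2 * (-t) by ring]
      linarith
  have hat : |t| ≤ ell n := by rw [abs_of_nonneg ht0]; exact ht
  have hat' : |-t| ≤ ell n := by rw [abs_neg]; exact hat
  have h1 := mgf_all n I J hn hIJ t t hat hat
  have h2 := mgf_all n I J hn hIJ t (-t) hat hat'
  have h3 := mgf_all n I J hn hIJ (-t) t hat' hat
  have h4 := mgf_all n I J hn hIJ (-t) (-t) hat' hat'
  have e1 : 4 * (t ^ 2 + t ^ 2) = 8 * t ^ 2 := by ring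
  have e2 : 4 * (t ^ 2 + (-t) ^ 2) = 8 * t ^ 2 := by ring
  have e3 : 4 * ((-t) ^ 2 + t ^ 2) = 8 * t ^ 2 := by ring
  have e4 : 4 * ((-t) ^ 2 + (-t) ^ 2) = 8 * t ^ 2 := by ring
  rw [e1] at h1
  rw [e2] at h2
  rw [e3] at h3
  rw [e4] at h4
  calc ∑ m ∈ tri n, pr n I J m * Real.exp (t * ab n I J m) ≤
      ∑ m ∈ tri n, (pr n I J m * Real.exp (sx n I m.1 * t + sx n J m.2 * t) +
        pr n I J m * Real.exp (sx n I m.1 * t + sx n J m.2 * (-t)) +
        pr n I J m * Real.exp (sx n I m.1 * (-t) + sx n J m.2 * t) +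
        pr n I J m * Real.exp (sx n I m.1 * (-t) + sx n J m.2 * (-t))) := by
        refine Finset.sum_le_sum fun m _ => ?_
        have := mul_le_mul_of_nonneg_left (key m) (pr_nonneg n I J m)
        linarith
    _ ≤ 4 * Real.exp (8 * t ^ 2) := by
        rw [Finset.sum_add_distrib, Finset.sum_add_distrib, Finset.sum_add_distrib]
        linarith

theorem log_le_rad {n : ℕ} (hn : 0 < n) : 12 * Real.log n ≤ rad n := by
  have h1 : n < 2 ^ (Nat.log 2 n + 1) := Nat.lt_pow_succ_log_self (by norm_num) n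
  have hnR : (0 : ℝ) < n := by exact_mod_cast hn
  have h2 : (n:ℝ) ≤ 2 ^ (Nat.log 2 n + 1) := by exact_mod_cast h1.le
  have h3 := Real.log_le_log hnR h2
  rw [Real.log_pow] at h3
  have h4 : Real.log 2 ≤ 1 := by linarith [Real.log_two_lt_d9]
  unfold rad
  push_cast at h3 ⊢
  have h5 : (0:ℝ) ≤ (Nat.log 2 n : ℝ) + 1 := by positivity
  nlinarith

theorem otw_ab {n I J : ℕ} (hn : 0 < n) {m : ℕ × ℕ} (hm : m ∈ otw n I J) :
    (rad n : ℝ) ≤ ab n I J m := by
  have hlR : (0 : ℝ) < ell n := by exact_mod_cast ell_pos hn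
  unfold otw at hm
  rw [Finset.mem_sdiff] at hm
  obtain ⟨h1, h2⟩ := hm
  have h3 : ¬ ((I ≤ m.1 + rad n * ell n ∧ m.1 ≤ I + rad n * ell n) ∧
      (J ≤ m.2 + rad n * ell n ∧ m.2 ≤ J + rad n * ell n)) := by
    intro h
    exact h2 (by unfold wdw; exact Finset.mem_filter.2 ⟨h1, h⟩)
  have key : ∀ a b : ℕ, ¬ (a ≤ b + rad n * ell n ∧ b ≤ a + rad n * ell n) →
      (rad n : ℝ) ≤ |sx n a b| := by
    intro a b h
    unfold sx
    rw [abs_div, abs_of_pos hlR, le_div_iff₀ hlR]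
    rcases Nat.lt_or_ge (b + rad n * ell n) a with h4 | h4
    · have h5 : (b:ℝ) + rad n * ell n ≤ a := by exact_mod_cast h4.le
      rw [abs_sub_comm]
      exact le_trans (by linarith) (le_abs_self _)
    · have h5 : a + rad n * ell n ≤ b := by
        by_contra h6
        exact h ⟨h4, by omega⟩
      have h6 : (a:ℝ) + rad n * ell n ≤ b := by exact_mod_cast h5
      exact le_trans (by linarith) (le_abs_self _)
  unfold ab
  rcases not_and_or.1 h3 with h4 | h4
  · exact (key I m.1 h4).trans (le_add_of_nonneg_right (abs_nonneg _))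
  · exact (key J m.2 h4).trans (le_add_of_nonneg_left (abs_nonneg _))

theorem tail_all : S_TAIL := by
  intro n I J hn hIJ t ht0 ht
  have h1 := abs_all n I J hn hIJ (t + 1) (by linarith) ht
  have hnR : (0 : ℝ) < n := by exact_mod_cast hn
  have hpow : (0 : ℝ) < (n:ℝ) ^ 12 := by positivity
  rw [le_div_iff₀ hpow, Finset.sum_mul]
  refine le_trans ?_ h1
  refine le_trans ?_ (Finset.sum_le_sum_of_subset_of_nonneg
    (show otw n I J ⊆ tri n from Finset.sdiff_subset)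
    (fun m _ _ => mul_nonneg (pr_nonneg n I J m) (Real.exp_pos _).le))
  refine Finset.sum_le_sum fun m hm => ?_
  rw [mul_assoc]
  refine mul_le_mul_of_nonneg_left ?_ (pr_nonneg n I J m)
  have h2 := otw_ab hn hm
  have h3 := log_le_rad hn
  have h4 : (n:ℝ) ^ 12 = Real.exp (12 * Real.log n) := by
    rw [← Real.exp_log hnR, ← Real.exp_nat_mul, Real.log_exp]
    norm_num
  rw [h4, ← Real.exp_add, Real.exp_le_exp]
  linarith

end Pool.Agent.Y317.KS
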