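import Pool.Agent.Y300.KS.Stm

/-! Project KS: the sup bound by Taylor coefficients. -/

set_option autoImplicit false

open Set MeasureTheory ProbabilityTheory Filter Topology

namespace Pool.Agent.Y317.KS

open Pool.Agent.K300 Pool.Agent.Y300.KS

theorem pr_nonneg' (n I J : ℕ) (m : ℕ × ℕ) : 0 ≤ pr n I J m := by
  unfold pr
  positivity

theorem geom_le (p : ℝ) (hp : |p| ≤ 1 / 2) (K : ℕ) : ∑ k ∈ Finset.range K, (p ^ k) ^ 2 ≤ 4 / 3 := by
  have h1 : ∀ k ∈ Finset.range K, (p ^ k) ^ 2 ≤ (1 / 4 : ℝ) ^ k := by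
    intro k _
    rw [← pow_mul, mul_comm, pow_mul]
    refine pow_le_pow_left₀ (sq_nonneg _) ?_ _
    rw [← sq_abs]
    nlinarith [abs_nonneg p]
  refine (Finset.sum_le_sum h1).trans ?_
  rw [geom_sum_eq (by norm_num)]
  have : (0:ℝ) < (1 / 4) ^ K := by positivity
  rw [div_le_iff_of_neg (by norm_num)]
  linarith

theorem sup_all : S_SUP := by
  intro n I J A y B E hB hE u v hu hv
  obtain ⟨p, hp1, hp2⟩ : ∃ p : ℝ, |p| ≤ 1 / 2 ∧ u = 2 * B * p := by
    rcases hB.eq_or_lt with h0 | h0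
    · refine ⟨0, by norm_num, ?_⟩
      rw [← h0] at hu
      rw [abs_eq_zero.1 (le_antisymm hu (abs_nonneg _))]; simp
    · refine ⟨u / (2 * B), ?_, by field_simp⟩
      rw [abs_div, abs_of_pos (by positivity : 0 < 2 * B), div_le_iff₀ (by positivity)]
      linarith
  obtain ⟨q, hq1, hq2⟩ : ∃ q : ℝ, |q| ≤ 1 / 2 ∧ v = 2 * B * q := by
    rcases hB.eq_or_lt with h0 | h0
    · refine ⟨0, by norm_num, ?_⟩
      rw [← h0] at hv
      rw [abs_eq_zero.1 (le_antisymm hv (abs_nonneg _))]; simp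
    · refine ⟨v / (2 * B), ?_, by field_simp⟩
      rw [abs_div, abs_of_pos (by positivity : 0 < 2 * B), div_le_iff₀ (by positivity)]
      linarith
  have hlim : ∀ x : ℝ, Tendsto (fun K : ℕ => ∑ k ∈ Finset.range K, x ^ k / k.factorial) atTop
      (𝓝 (Real.exp x)) := by
    intro x
    have h := NormedSpace.expSeries_div_hasSum_exp x
    rw [← Real.exp_eq_exp_ℝ] at h
    exact h.tendsto_sum_nat
  have hT : Tendsto (fun K : ℕ => ∑ m ∈ A, y m * (sp n I J m *
      ((∑ k ∈ Finset.range K, (sx n I m.1 * u) ^ k / k.factorial) *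
        (∑ l ∈ Finset.range K, (sx n J m.2 * v) ^ l / l.factorial)))) atTop
      (𝓝 (loc n I J A y u v)) := by
    unfold loc
    refine tendsto_finsetSum _ fun m _ => ?_
    rw [Real.exp_add]
    exact (((hlim _).mul (hlim _)).const_mul _).const_mul _
  refine le_of_tendsto hT.abs (Filter.Eventually.of_forall fun K => ?_)
  have e1 : ∑ m ∈ A, y m * (sp n I J m *
      ((∑ k ∈ Finset.range K, (sx n I m.1 * u) ^ k / k.factorial) *
        (∑ l ∈ Finset.range K, (sx n J m.2 * v) ^ l / l.factorial))) =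
      ∑ z ∈ Finset.range K ×ˢ Finset.range K, (p ^ z.1 * q ^ z.2) *
        (∑ m ∈ A, co n I J B z.1 z.2 m * y m) := by
    have e2 : ∀ m ∈ A, y m * (sp n I J m *
        ((∑ k ∈ Finset.range K, (sx n I m.1 * u) ^ k / k.factorial) *
        (∑ l ∈ Finset.range K, (sx n J m.2 * v) ^ l / l.factorial))) =
        ∑ z ∈ Finset.range K ×ˢ Finset.range K, (p ^ z.1 * q ^ z.2) *
          (co n I J B z.1 z.2 m * y m) := by
      intro m _
      rw [Finset.sum_mul_sum, ← Finset.sum_product', Finset.mul_sum, Finset.mul_sum]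
      refine Finset.sum_congr rfl fun z _ => ?_
      unfold co
      rw [hp2, hq2]
      have e3 : (sx n I m.1 * (2 * B * p)) ^ z.1 = (2 * B * sx n I m.1) ^ z.1 * p ^ z.1 := by
        rw [← mul_pow]; congr 1; ring
      have e4 : (sx n J m.2 * (2 * B * q)) ^ z.2 = (2 * B * sx n J m.2) ^ z.2 * q ^ z.2 := by
        rw [← mul_pow]; congr 1; ring
      rw [e3, e4]
      ring
    rw [Finset.sum_congr rfl e2, Finset.sum_comm]
    exact Finset.sum_congr rfl fun z _ => (Finset.mul_sum _ _ _).symm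
  rw [e1]
  have h2 := Finset.sum_mul_sq_le_sq_mul_sq (Finset.range K ×ˢ Finset.range K)
    (fun z => p ^ z.1 * q ^ z.2) (fun z => ∑ m ∈ A, co n I J B z.1 z.2 m * y m)
  have h3 : ∑ z ∈ Finset.range K ×ˢ Finset.range K, (p ^ z.1 * q ^ z.2) ^ 2 ≤ 4 := by
    rw [Finset.sum_product]
    simp only [mul_pow]
    simp only [← Finset.mul_sum, ← Finset.sum_mul]
    have a1 := geom_le p hp1 K
    have a2 := geom_le q hq1 K
    have a3 : 0 ≤ ∑ k ∈ Finset.range K, (p ^ k) ^ 2 := Finset.sum_nonneg fun _ _ => sq_nonneg _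
    have a4 : 0 ≤ ∑ k ∈ Finset.range K, (q ^ k) ^ 2 := Finset.sum_nonneg fun _ _ => sq_nonneg _
    nlinarith
  have h4 : ∑ z ∈ Finset.range K ×ˢ Finset.range K,
      (∑ m ∈ A, co n I J B z.1 z.2 m * y m) ^ 2 ≤ E := by
    rw [Finset.sum_product]
    exact hE K
  have hE0 : 0 ≤ E := by
    refine le_trans ?_ (hE 0)
    simp [enr]
  have h5 : (∑ z ∈ Finset.range K ×ˢ Finset.range K, (p ^ z.1 * q ^ z.2) *
        (∑ m ∈ A, co n I J B z.1 z.2 m * y m)) ^ 2 ≤ 4 * E := by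
    refine h2.trans ?_
    exact mul_le_mul h3 h4 (Finset.sum_nonneg fun _ _ => sq_nonneg _) (by norm_num)
  have h6 := Real.abs_le_sqrt h5
  rwa [show (4:ℝ) * E = 2 ^ 2 * E by ring, Real.sqrt_mul (by norm_num),
    Real.sqrt_sq (by norm_num)] at h6

theorem sq_exp (x : ℝ) (K : ℕ) : ∑ k ∈ Finset.range K, (x ^ k / k.factorial) ^ 2 ≤
    Real.exp (2 * |x|) := by
  have h1 : ∑ k ∈ Finset.range K, (x ^ k / k.factorial) ^ 2 =
      ∑ k ∈ Finset.range K, (|x| ^ k / k.factorial) ^ 2 := by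
    refine Finset.sum_congr rfl fun k _ => ?_
    rw [div_pow, div_pow, ← pow_mul, ← pow_mul, mul_comm k 2, pow_mul, pow_mul, sq_abs]
  rw [h1]
  have h2 : ∑ k ∈ Finset.range K, (|x| ^ k / k.factorial) ^ 2 ≤
      (∑ k ∈ Finset.range K, |x| ^ k / k.factorial) ^ 2 :=
    Finset.sum_sq_le_sq_sum_of_nonneg fun k _ => by positivity
  refine h2.trans ?_
  have h3 := Real.sum_le_exp_of_nonneg (abs_nonneg x) K
  have h4 : 0 ≤ ∑ k ∈ Finset.range K, |x| ^ k / k.factorial :=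
    Finset.sum_nonneg fun k _ => by positivity
  refine (pow_le_pow_left₀ h4 h3 2).trans ?_
  rw [← Real.exp_nat_mul]
  norm_num

theorem enco_all : S_ENCO := by
  intro n I J A B K hB
  have e1 : ∑ k ∈ Finset.range K, ∑ l ∈ Finset.range K, ∑ m ∈ A, co n I J B k l m ^ 2 =
      ∑ m ∈ A, pr n I J m * ((∑ k ∈ Finset.range K, ((2 * B * sx n I m.1) ^ k / k.factorial) ^ 2) *
        ∑ l ∈ Finset.range K, ((2 * B * sx n J m.2) ^ l / l.factorial) ^ 2) := by
    have e2 : ∀ k ∈ Finset.range K, ∑ l ∈ Finset.range K, ∑ m ∈ A, co n I J B k l m ^ 2 =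
        ∑ m ∈ A, ∑ l ∈ Finset.range K, co n I J B k l m ^ 2 := fun k _ => Finset.sum_comm
    rw [Finset.sum_congr rfl e2, Finset.sum_comm]
    refine Finset.sum_congr rfl fun m _ => ?_
    rw [Finset.sum_mul_sum, Finset.mul_sum]
    refine Finset.sum_congr rfl fun k _ => ?_
    rw [Finset.mul_sum]
    refine Finset.sum_congr rfl fun l _ => ?_
    unfold co
    have e3 : sp n I J m ^ 2 = pr n I J m := Real.sq_sqrt (pr_nonneg' n I J m)
    rw [mul_pow, mul_pow, e3]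
  rw [e1]
  refine Finset.sum_le_sum fun m _ => mul_le_mul_of_nonneg_left ?_ (pr_nonneg' n I J m)
  have h1 := sq_exp (2 * B * sx n I m.1) K
  have h2 := sq_exp (2 * B * sx n J m.2) K
  have h3 : 0 ≤ ∑ l ∈ Finset.range K, ((2 * B * sx n J m.2) ^ l / l.factorial) ^ 2 :=
    Finset.sum_nonneg fun _ _ => sq_nonneg _
  refine (mul_le_mul h1 h2 h3 (Real.exp_pos _).le).trans (le_of_eq ?_)
  rw [← Real.exp_add]
  congr 1
  unfold ab
  rw [abs_mul, abs_mul (2 * B), abs_of_nonneg (by positivity : 0 ≤ 2 * B)]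
  ring

end Pool.Agent.Y317.KS
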